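import Pool.Agent.Helper98.NP.Defs

/-!
# Newton polygon criterion, modules C1 (chain lemma) and C2 (simply laced case)
-/

namespace Pool.Agent.Helper12.NP

open Pool.Agent.Helper98.NP

section

variable {ι K M N : Type*} [Finite ι] [Field K] [CharZero K] [AddCommGroup M] [Module K M]
  [AddCommGroup N] [Module K N] {P : RootPairing ι K M N} [P.IsCrystallographic] [P.IsReduced]
  {Λ : Finset M} {d : M → ℕ} {ρ : ι → ℕ}

omit [Finite ι] [CharZero K] [P.IsCrystallographic] [P.IsReduced] in
/-- elements of the root lattice are sums of roots -/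
theorem exists_multiset (P : RootPairing ι K M N) {x : M}
    (hx : x ∈ AddSubgroup.closure (Set.range P.root)) :
    ∃ m : Multiset ι, (m.map P.root).sum = x := by
  induction hx using AddSubgroup.closure_induction with
  | mem x hx =>
    obtain ⟨i, rfl⟩ := hx
    exact ⟨{i}, by simp⟩
  | zero => exact ⟨0, by simp⟩
  | add x y _ _ hx hy =>
    obtain ⟨m, rfl⟩ := hx
    obtain ⟨m', rfl⟩ := hy
    exact ⟨m + m', by simp⟩
  | neg x _ hx =>
    obtain ⟨m, rfl⟩ := hx
    refine ⟨m.map (fun i => P.reflectionPerm i i), ?_⟩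
    rw [Multiset.map_map]
    have : (P.root ∘ fun i => P.reflectionPerm i i) = fun i => - P.root i := by
      funext i
      simp
    rw [this, ← Multiset.sum_map_neg', Multiset.map_map]
    rfl

omit [Finite ι] [CharZero K] [P.IsCrystallographic] [P.IsReduced] in
/-- the integer value of a minuscule weight on a coroot -/
theorem mini_int (W : Wts P Λ) {l : M} (hl : l ∈ Λ) (i : ι) :
    ∃ a : ℤ, -1 ≤ a ∧ a ≤ 1 ∧ P.toLinearMap l (P.coroot i) = (a : K) := by
  rcases W.mini l hl i with h | h | h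
  · exact ⟨-1, by norm_num, by norm_num, by rw [h]; simp⟩
  · exact ⟨0, by norm_num, by norm_num, by rw [h]; simp⟩
  · exact ⟨1, by norm_num, by norm_num, by rw [h]; simp⟩

/-- (C1) chain lemma. -/
theorem exists_chain (W : Wts P Λ) {l l' : M} (hl : l ∈ Λ) (hl' : l' ∈ Λ) :
    ∃ (r : ℕ) (γ : Fin r → ι), Chain P l l' γ := by
  classical
  -- minimal expression
  have hex : ∃ r : ℕ, ∃ m : Multiset ι, m.card = r ∧ (m.map P.root).sum = l - l' := by
    obtain ⟨m, hm⟩ := exists_multiset P (W.diff l hl l' hl')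
    exact ⟨m.card, m, rfl, hm⟩
  obtain ⟨m, hmc, hms⟩ := Nat.find_spec hex
  have hmin : ∀ m' : Multiset ι, (m'.map P.root).sum = l - l' → Nat.find hex ≤ m'.card :=
    fun m' h => Nat.find_min' hex ⟨m', rfl, h⟩
  obtain ⟨r, hr⟩ : ∃ r, r = Nat.find hex := ⟨_, rfl⟩
  rw [← hr] at hmc hmin
  obtain ⟨L, rfl⟩ : ∃ L : List ι, (L : Multiset ι) = m := Quot.exists_rep m
  have hLr : L.length = r := by simpa using hmc
  obtain ⟨γ, hγ⟩ : ∃ γ : Fin r → ι, l - l' = ∑ j, P.root (γ j) := by
    rw [← hLr]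
    refine ⟨L.get, ?_⟩
    rw [← hms, ← List.sum_ofFn]
    simp only [Multiset.map_coe, Multiset.sum_coe]
    congr 1
    have : L.map P.root = (List.ofFn L.get).map P.root := by rw [List.ofFn_get]
    rw [this, List.map_ofFn]
    rfl
  -- shortening
  have hsum2 : ∀ i j : Fin r, i ≠ j → l - l' = P.root (γ i) + P.root (γ j) +
      ∑ k ∈ (Finset.univ.erase i).erase j, P.root (γ k) := by
    intro i j hij
    have hj : j ∈ Finset.univ.erase i := Finset.mem_erase.2 ⟨hij.symm, Finset.mem_univ _⟩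
    rw [hγ, ← Finset.add_sum_erase _ _ (Finset.mem_univ i), ← Finset.add_sum_erase _ _ hj,
      add_assoc]
  have hcard2 : ∀ i j : Fin r, i ≠ j → ((Finset.univ.erase i).erase j).card + 2 = r := by
    intro i j hij
    have hj : j ∈ Finset.univ.erase i := Finset.mem_erase.2 ⟨hij.symm, Finset.mem_univ _⟩
    rw [Finset.card_erase_of_mem hj, Finset.card_erase_of_mem (Finset.mem_univ i),
      Finset.card_univ, Fintype.card_fin]
    have h1 := i.2
    have h2 := j.2
    have h3 : (i : ℕ) ≠ j := fun h => hij (Fin.ext h)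
    omega
  have hstr : ∀ i j : Fin r, i ≠ j → P.root (γ i) + P.root (γ j) ∉ Set.range P.root := by
    intro i j hij hmem
    obtain ⟨k, hk⟩ := hmem
    have h1 := hmin (k ::ₘ (((Finset.univ.erase i).erase j).val.map γ)) (by
      rw [Multiset.map_cons, Multiset.sum_cons, Multiset.map_map, hk, hsum2 i j hij]
      rfl)
    rw [Multiset.card_cons, Multiset.card_map, Finset.card_val] at h1
    have h2 := hcard2 i j hij
    omega
  have hnz : ∀ i j : Fin r, i ≠ j → P.root (γ i) ≠ - P.root (γ j) := by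
    intro i j hij h0
    have h1 := hmin (((Finset.univ.erase i).erase j).val.map γ) (by
      rw [Multiset.map_map, hsum2 i j hij, h0]
      simp only [neg_add_cancel, zero_add]
      rfl)
    rw [Multiset.card_map, Finset.card_val] at h1
    have h2 := hcard2 i j hij
    omega
  have hnn : ∀ i j : Fin r, i ≠ j → 0 ≤ P.pairingIn ℤ (γ i) (γ j) := by
    intro i j hij
    by_contra hcon
    push Not at hcon
    exact hstr i j hij (P.root_add_root_mem_of_pairingIn_neg hcon (hnz i j hij))
  -- evaluation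
  have hev : ∀ j : Fin r, P.toLinearMap l (P.coroot (γ j)) = 1 ∧
      P.toLinearMap l' (P.coroot (γ j)) = -1 ∧ ∀ i, i ≠ j → P.pairingIn ℤ (γ i) (γ j) = 0 := by
    intro j
    obtain ⟨a, ha1, ha2, ha⟩ := mini_int W hl (γ j)
    obtain ⟨b, hb1, hb2, hb⟩ := mini_int W hl' (γ j)
    have h1 : P.toLinearMap (l - l') (P.coroot (γ j)) = ∑ i, P.pairing (γ i) (γ j) := by
      rw [hγ, LinearMap.map_sum₂]
      rfl
    have h2 : ((a - b : ℤ) : K) = ((∑ i, P.pairingIn ℤ (γ i) (γ j) : ℤ) : K) := by
      rw [map_sub, LinearMap.sub_apply, ha, hb] at h1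
      push_cast
      rw [h1]
      apply Finset.sum_congr rfl
      intro i _
      rw [← P.algebraMap_pairingIn ℤ]
      simp
    have h3 : a - b = ∑ i, P.pairingIn ℤ (γ i) (γ j) := Int.cast_injective h2
    rw [← Finset.add_sum_erase _ _ (Finset.mem_univ j), P.pairingIn_same] at h3
    have h4 : 0 ≤ ∑ i ∈ Finset.univ.erase j, P.pairingIn ℤ (γ i) (γ j) :=
      Finset.sum_nonneg fun i hi => hnn i j (Finset.ne_of_mem_erase hi)
    have h5 : ∑ i ∈ Finset.univ.erase j, P.pairingIn ℤ (γ i) (γ j) = 0 := by linarith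
    have h6 : a = 1 := by linarith
    have h7 : b = -1 := by linarith
    refine ⟨by rw [ha, h6]; simp, by rw [hb, h7]; simp, ?_⟩
    intro i hij
    rw [Finset.sum_eq_zero_iff_of_nonneg
      (fun i hi => hnn i j (Finset.ne_of_mem_erase hi))] at h5
    exact h5 i (Finset.mem_erase.2 ⟨hij, Finset.mem_univ _⟩)
  refine ⟨r, γ, hγ, fun j => (hev j).1, fun j => (hev j).2.1, ?_, hstr⟩
  intro i j hij
  rw [← P.algebraMap_pairingIn ℤ, (hev j).2.2 i hij, map_zero]

omit [Finite ι] [CharZero K] [P.IsCrystallographic] [P.IsReduced] in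
/-- symmetry of the trace form -/
theorem Tr_symm (T : Tr P Λ d ρ) (i j : ι) :
    (ρ i : K) * P.pairing i j = (ρ j : K) * P.pairing j i := by
  have h1 := T.tr i (P.coroot j)
  have h2 := T.tr j (P.coroot i)
  have e1 : P.toLinearMap (P.root i) (P.coroot j) = P.pairing i j := rfl
  have e2 : P.toLinearMap (P.root j) (P.coroot i) = P.pairing j i := rfl
  rw [e1] at h1
  rw [e2] at h2
  rw [← h1, ← h2]
  apply Finset.sum_congr rfl
  intro l _
  ring

omit [P.IsCrystallographic] [P.IsReduced] [Finite ι] in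
/-- in the simply laced irreducible case the trace form has constant length -/
theorem rho_const [P.IsIrreducible] (T : Tr P Λ d ρ)
    (hsl : ∀ i j, P.pairing i j = P.pairing j i) (i j : ι) : ρ i = ρ j := by
  by_contra hne
  have hortho : ∀ k m, P.pairing k m ≠ 0 → ρ k = ρ m := by
    intro k m hkm
    have h1 := Tr_symm T k m
    rw [hsl m k] at h1
    have h2 := mul_right_cancel₀ hkm h1
    exact_mod_cast h2
  set q : Submodule K M := Submodule.span K (P.root '' {k | ρ k = ρ i}) with hq
  have hinv : ∀ m, q ∈ Module.End.invtSubmodule (P.reflection m : M →ₗ[K] M) := by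
    intro m
    rw [Module.End.mem_invtSubmodule, hq, Submodule.span_le]
    rintro _ ⟨k, hk, rfl⟩
    change P.reflection m (P.root k) ∈ Submodule.span K (P.root '' {k | ρ k = ρ i})
    rw [P.reflection_apply_root]
    apply Submodule.sub_mem
    · exact Submodule.subset_span ⟨k, hk, rfl⟩
    · by_cases h0 : P.pairing k m = 0
      · rw [h0, zero_smul]
        exact Submodule.zero_mem _
      · apply Submodule.smul_mem
        apply Submodule.subset_span
        refine ⟨m, ?_, rfl⟩
        have := hortho k m h0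
        change ρ m = ρ i
        rw [← this]
        exact hk
  have hbot : q ≠ ⊥ := by
    intro h0
    have h1 : P.root i ∈ q := Submodule.subset_span ⟨i, rfl, rfl⟩
    rw [h0, Submodule.mem_bot] at h1
    exact P.ne_zero i h1
  have htop := RootPairing.IsIrreducible.eq_top_of_invtSubmodule_reflection (P := P) q hinv hbot
  have hker : q ≤ LinearMap.ker (P.coroot' j) := by
    rw [hq, Submodule.span_le]
    rintro _ ⟨k, hk, rfl⟩
    change P.coroot' j (P.root k) = 0
    rw [P.root_coroot'_eq_pairing]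
    by_contra h0
    apply hne
    rw [← hortho k j h0]
    exact hk.symm
  have h1 : P.root j ∈ q := by rw [htop]; trivial
  have h2 : P.coroot' j (P.root j) = 0 := hker h1
  rw [P.root_coroot'_eq_pairing, P.pairing_same] at h2
  exact two_ne_zero h2

/-- parity lemma: a sum over a symmetric finite set -/
theorem sum_even_symm {G : Type*} [AddCommGroup G] {Λ : Finset G} (hneg : ∀ l ∈ Λ, -l ∈ Λ)
    (f h : G → ℤ) (hf : ∀ l ∈ Λ, f (-l) = f l) (hh : ∀ l ∈ Λ, h (-l) = - h l)
    (hodd : ∀ l ∈ Λ, Odd (h l)) (heven : ∀ l ∈ Λ, Even (f l)) : ∃ m : ℤ, ∑ l ∈ Λ, f l = 4 * m := by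
  classical
  have h1 : ∑ l ∈ Λ, f l = ∑ l ∈ Λ.filter (fun l => 0 < h l), f l +
      ∑ l ∈ Λ.filter (fun l => ¬ 0 < h l), f l :=
    (Finset.sum_filter_add_sum_filter_not Λ _ _).symm
  have h2 : ∑ l ∈ Λ.filter (fun l => ¬ 0 < h l), f l = ∑ l ∈ Λ.filter (fun l => 0 < h l), f l := by
    refine Finset.sum_bij' (fun l _ => -l) (fun l _ => -l) ?_ ?_ ?_ ?_ ?_
    · intro l hl
      rw [Finset.mem_filter] at hl ⊢
      refine ⟨hneg l hl.1, ?_⟩
      rw [hh l hl.1]
      obtain ⟨a, ha⟩ := hodd l hl.1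
      omega
    · intro l hl
      rw [Finset.mem_filter] at hl ⊢
      refine ⟨hneg l hl.1, ?_⟩
      rw [hh l hl.1]
      omega
    · intro l _
      exact neg_neg l
    · intro l _
      exact neg_neg l
    · intro l hl
      exact (hf l (Finset.mem_filter.1 hl).1).symm
  obtain ⟨b, hb⟩ : Even (∑ l ∈ Λ.filter (fun l => 0 < h l), f l) := by
    apply Finset.even_sum
    intro l hl
    exact heven l (Finset.mem_filter.1 hl).1
  refine ⟨b, ?_⟩
  rw [h1, h2, hb]
  ring

/-- (C2) parity in the simply laced case -/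
theorem simply_laced [P.IsIrreducible] (W : Wts P Λ) (T : Tr P Λ d ρ) (hρ : ∀ i, Even (ρ i))
    (hsl : ∀ i j, P.pairing i j = P.pairing j i)
    {l : M} (hl : l ∈ Λ) {r : ℕ} (hr : Odd r) {β : Fin r → ι} (hβ : Chain P l (-l) β)
    {x : N} (hx : ∀ l ∈ Λ, ∃ n : ℤ, P.toLinearMap l x = n) :
    ∃ m : ℤ, ∑ l ∈ Λ, (d l : K) * (P.toLinearMap l x * P.toLinearMap l x) = 4 * m := by
  classical
  set H : N := ∑ j, P.coroot (β j) with hH
  have hsum : l - -l = ∑ j, P.root (β j) := hβ.sum
  have hlH : P.toLinearMap l H = (r : K) := by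
    rw [hH, map_sum]
    simp only [hβ.top]
    simp
  -- values on H
  have hval : ∀ l' ∈ Λ, ∃ n : ℤ, P.toLinearMap l' H = (n : K) ∧ Odd n := by
    intro l' hl'
    obtain ⟨t, γ, hγ⟩ := exists_chain W hl hl'
    refine ⟨(r : ℤ) - 2 * t, ?_, ?_⟩
    · have h1 : P.toLinearMap (l - l') H = 2 * (t : K) := by
        rw [hγ.sum, LinearMap.map_sum₂]
        have h2 : ∀ s, P.toLinearMap (P.root (γ s)) H = 2 := by
          intro s
          rw [hH, map_sum]
          have h3 : ∀ j, P.toLinearMap (P.root (γ s)) (P.coroot (β j)) =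
              P.toLinearMap (P.root (β j)) (P.coroot (γ s)) := fun j => hsl (γ s) (β j)
          simp only [h3]
          rw [← LinearMap.map_sum₂, ← hsum, sub_neg_eq_add, map_add,
            LinearMap.add_apply, hγ.top]
          norm_num
        simp only [h2]
        simp
        ring
      rw [map_sub, LinearMap.sub_apply, hlH] at h1
      push_cast
      linear_combination -h1
    · obtain ⟨k, hk⟩ := hr
      refine ⟨(k : ℤ) - t, ?_⟩
      rw [hk]
      push_cast
      ring
  choose! n hn using hx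
  choose! h hhv hhodd using hval
  have hnneg : ∀ l' ∈ Λ, n (-l') = - n l' := by
    intro l' hl'
    have h1 := hn (-l') (W.neg l' hl')
    rw [map_neg, LinearMap.neg_apply, hn l' hl'] at h1
    have h2 : ((n (-l') : ℤ) : K) = ((- n l' : ℤ) : K) := by
      rw [← h1]
      push_cast
      rfl
    exact Int.cast_injective h2
  have hhneg : ∀ l' ∈ Λ, h (-l') = - h l' := by
    intro l' hl'
    have h1 := hhv (-l') (W.neg l' hl')
    rw [map_neg, LinearMap.neg_apply, hhv l' hl'] at h1
    have h2 : ((h (-l') : ℤ) : K) = ((- h l' : ℤ) : K) := by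
      rw [← h1]
      push_cast
      rfl
    exact Int.cast_injective h2
  -- the even part
  obtain ⟨m₁, hm₁⟩ := sum_even_symm (Λ := Λ) W.neg (fun l' => (d l' : ℤ) * (n l' * (n l' - h l')))
    h (by
      intro l' hl'
      rw [T.neg, hnneg l' hl', hhneg l' hl']
      ring) hhneg hhodd (by
      intro l' hl'
      apply Even.mul_left
      rcases Int.even_or_odd (n l') with he | ho
      · exact he.mul_right _
      · exact (ho.sub_odd (hhodd l' hl')).mul_left _)
  -- the part with H
  have hpart : ∑ l' ∈ Λ, (d l' : K) * (P.toLinearMap l' x * P.toLinearMap l' H) =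
      ∑ j, (ρ (β j) : K) * P.toLinearMap (P.root (β j)) x := by
    have h1 : ∀ j, (ρ (β j) : K) * P.toLinearMap (P.root (β j)) x =
        ∑ l' ∈ Λ, (d l' : K) * (P.toLinearMap l' x * P.toLinearMap l' (P.coroot (β j))) :=
      fun j => (T.tr (β j) x).symm
    simp only [h1]
    rw [Finset.sum_comm]
    apply Finset.sum_congr rfl
    intro l' _
    rw [hH, map_sum, Finset.mul_sum, Finset.mul_sum]
  obtain ⟨j₀⟩ : Nonempty (Fin r) := by
    obtain ⟨k, hk⟩ := hr
    exact ⟨⟨0, by omega⟩⟩
  obtain ⟨ρ₀, hρ₀⟩ := hρ (β j₀)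
  have hpart2 : ∑ j, (ρ (β j) : K) * P.toLinearMap (P.root (β j)) x =
      4 * ((ρ₀ * n l : ℤ) : K) := by
    have h1 : ∀ j, (ρ (β j) : K) = (ρ (β j₀) : K) := by
      intro j
      rw [rho_const T hsl (β j) (β j₀)]
    simp only [h1]
    rw [← Finset.mul_sum, ← LinearMap.map_sum₂, ← hsum, sub_neg_eq_add, map_add,
      LinearMap.add_apply, hn l hl, hρ₀]
    push_cast
    ring
  refine ⟨m₁ + ρ₀ * n l, ?_⟩
  have hsplit : ∑ l' ∈ Λ, (d l' : K) * (P.toLinearMap l' x * P.toLinearMap l' x) =
      ((∑ l' ∈ Λ, (d l' : ℤ) * (n l' * (n l' - h l')) : ℤ) : K) +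
      ∑ l' ∈ Λ, (d l' : K) * (P.toLinearMap l' x * P.toLinearMap l' H) := by
    push_cast
    rw [← Finset.sum_add_distrib]
    apply Finset.sum_congr rfl
    intro l' hl'
    rw [hn l' hl', hhv l' hl']
    ring
  rw [hsplit, hpart, hpart2, hm₁]
  push_cast
  ring

end

end Pool.Agent.Helper12.NP
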